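import Mathlib

/-!
# A quasi-polynomial translation from BDDs to mental programs
-/

namespace Pool.Agent.Results.MP_811ee8_lc.QuasiPoly

/-! ### Mental programs -/

/-- Boolean formulas over `V`. -/
inductive BF (V : Type) : Type
  | var (p : V) : BF V
  | top : BF V
  | bot : BF V
  | neg (β : BF V) : BF V
  | and (β γ : BF V) : BF V
  | or (β γ : BF V) : BF V

/-- Truth of a Boolean formula at a state. -/
def BF.Sat {V : Type} (s : Set V) : BF V → Prop
  | .var p => p ∈ s
  | .top => True
  | .bot => False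
  | .neg β => ¬ β.Sat s
  | .and β γ => β.Sat s ∧ γ.Sat s
  | .or β γ => β.Sat s ∨ γ.Sat s

/-- Length of a Boolean formula: the number of symbols, parentheses included. -/
def BF.len {V : Type} : BF V → ℕ
  | .var _ => 1
  | .top => 1
  | .bot => 1
  | .neg β => β.len + 1
  | .and β γ => β.len + γ.len + 3
  | .or β γ => β.len + γ.len + 3

/-- Mental programs over `V`: `p ← ⊤`, `p ← ⊥`, tests `β?`, union, composition, intersection. -/
inductive Prog (V : Type) : Type
  | setTrue (p : V) : Prog V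
  | setFalse (p : V) : Prog V
  | test (β : BF V) : Prog V
  | union (π₁ π₂ : Prog V) : Prog V
  | comp (π₁ π₂ : Prog V) : Prog V
  | inter (π₁ π₂ : Prog V) : Prog V

/-- The relation between states denoted by a program. -/
def Prog.Rel {V : Type} : Prog V → Set V → Set V → Prop
  | .setTrue p, s, t => t = s ∪ {p}
  | .setFalse p, s, t => t = s \ {p}
  | .test β, s, t => t = s ∧ β.Sat s
  | .union π₁ π₂, s, t => π₁.Rel s t ∨ π₂.Rel s t
  | .comp π₁ π₂, s, t => ∃ u, π₁.Rel s u ∧ π₂.Rel u t
  | .inter π₁ π₂, s, t => π₁.Rel s t ∧ π₂.Rel s t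

/-- Length of a program: the number of symbols, parentheses included; `p ← ⊤` has three symbols,
a test counts the length of its formula plus one. -/
def Prog.len {V : Type} : Prog V → ℕ
  | .setTrue _ => 3
  | .setFalse _ => 3
  | .test β => β.len + 1
  | .union π₁ π₂ => π₁.len + π₂.len + 3
  | .comp π₁ π₂ => π₁.len + π₂.len + 3
  | .inter π₁ π₂ => π₁.len + π₂.len + 3

/-! ### Binary decision diagrams -/

/-- Ordered binary decision diagrams over the variables `X`. The nodes are the elements of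
`Fin size`; a node is a terminal (`Sum.inl true` or `Sum.inl false`) or a decision node
`Sum.inr (x, l, h)` with variable `x`, low child `l` (taken if `x` is false) and high child `h`
(taken if `x` is true). The variable order is given by the injective map `rk`, and the rank of the
variables increases strictly along the edges. -/
structure BDD (X : Type) where
  /-- the number of nodes -/
  size : ℕ
  /-- the root -/
  root : Fin size
  /-- the labels and children -/
  node : Fin size → Bool ⊕ (X × Fin size × Fin size)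
  /-- the variable order -/
  rk : X → ℕ
  rk_inj : Function.Injective rk
  ordered : ∀ u x l h, node u = Sum.inr (x, l, h) →
    (∀ y l' h', node l = Sum.inr (y, l', h') → rk x < rk y) ∧
    (∀ y l' h', node h = Sum.inr (y, l', h') → rk x < rk y)

/-- `Ω.Acc a u`: following from the node `u` the edges chosen by the assignment `a` one reaches
the terminal `true`. -/
inductive BDD.Acc {X : Type} (Ω : BDD X) (a : Set X) : Fin Ω.size → Prop
  | leaf (u : Fin Ω.size) (h : Ω.node u = Sum.inl true) : BDD.Acc Ω a u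
  | low (u : Fin Ω.size) (x : X) (l h : Fin Ω.size) (hu : Ω.node u = Sum.inr (x, l, h))
      (hx : x ∉ a) (hl : BDD.Acc Ω a l) : BDD.Acc Ω a u
  | high (u : Fin Ω.size) (x : X) (l h : Fin Ω.size) (hu : Ω.node u = Sum.inr (x, l, h))
      (hx : x ∈ a) (hh : BDD.Acc Ω a h) : BDD.Acc Ω a u

/-- The assignment `s ∪ t'` to the variables `V ∪ V'` (represented by `V ⊕ V`). -/
def pair {V : Type} (s t : Set V) : Set (V ⊕ V) := Sum.inl '' s ∪ Sum.inr '' t

/-- The relation `R_Ω = {(s,t) : s ∪ t' ⊨ Ω}` represented by a BDD over `V ∪ V'`. -/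
def BDD.Rel {V : Type} (Ω : BDD (V ⊕ V)) (s t : Set V) : Prop := Ω.Acc (pair s t) Ω.root

/-! ### Elementary programs -/

section

variable {V : Type}

/-- The program changing the variables of a list arbitrarily. -/
def anyL : List V → Prog V
  | [] => .test .top
  | p :: l => .comp (.union (.setTrue p) (.setFalse p)) (anyL l)

theorem anyL_len (l : List V) : (anyL l).len = 12 * l.length + 2 := by
  induction l with
  | nil => rfl
  | cons p l ih =>
    simp only [anyL, Prog.len, ih, List.length_cons]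
    ring

theorem anyL_rel (l : List V) (s t : Set V) :
    (anyL l).Rel s t ↔ ∀ p, p ∉ l → (p ∈ s ↔ p ∈ t) := by
  classical
  induction l generalizing s with
  | nil =>
    simp only [anyL, Prog.Rel, BF.Sat, and_true]
    constructor
    · rintro rfl p _
      exact Iff.rfl
    · intro h
      ext p
      exact (h p (List.not_mem_nil)).symm
  | cons q l ih =>
    simp only [anyL, Prog.Rel]
    constructor
    · rintro ⟨u, hu, hu'⟩ p hp
      rw [ih] at hu'
      rw [List.mem_cons, not_or] at hp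
      rw [← hu' p hp.2]
      rcases hu with rfl | rfl
      · simp [hp.1]
      · simp [hp.1]
    · intro h
      by_cases hq : q ∈ t
      · refine ⟨s ∪ {q}, Or.inl rfl, ?_⟩
        rw [ih]
        intro p hp
        by_cases hpq : p = q
        · subst hpq
          simp [hq]
        · rw [← h p (by simp [hpq, hp])]
          simp [hpq]
      · refine ⟨s \ {q}, Or.inr rfl, ?_⟩
        rw [ih]
        intro p hp
        by_cases hpq : p = q
        · subst hpq
          simp [hq]
        · rw [← h p (by simp [hpq, hp])]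
          simp [hpq]

variable [Fintype V]

/-- The universal program. -/
noncomputable def anyP (V : Type) [Fintype V] : Prog V := anyL (Finset.univ : Finset V).toList

theorem anyP_len : (anyP V).len = 12 * Fintype.card V + 2 := by
  rw [anyP, anyL_len, Finset.length_toList, Finset.card_univ]

theorem anyP_rel (s t : Set V) : (anyP V).Rel s t := by
  rw [anyP, anyL_rel]
  intro p hp
  exact absurd (Finset.mem_toList.2 (Finset.mem_univ p)) hp

/-- The program testing the literal `x` (if `b`) or `¬ x`. -/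
noncomputable def lit (b : Bool) : V ⊕ V → Prog V
  | .inl p => .comp (.test (if b then .var p else .neg (.var p))) (anyP V)
  | .inr p => .comp (anyP V) (.test (if b then .var p else .neg (.var p)))

theorem lit_len (b : Bool) (x : V ⊕ V) : (lit b x).len ≤ 12 * Fintype.card V + 8 := by
  rcases x with p | p <;> cases b <;> simp only [lit, Prog.len, anyP_len, BF.len, if_true,
    if_false, Bool.false_eq_true] <;> omega

theorem lit_rel (b : Bool) (x : V ⊕ V) (s t : Set V) :
    (lit b x).Rel s t ↔ ((x ∈ pair s t) ↔ b = true) := by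
  rcases x with p | p
  · have h1 : (Sum.inl p : V ⊕ V) ∈ pair s t ↔ p ∈ s := by simp [pair]
    rw [h1]
    simp only [lit, Prog.Rel]
    constructor
    · rintro ⟨u, ⟨rfl, hu⟩, _⟩
      cases b
      · simpa [BF.Sat] using hu
      · simpa [BF.Sat] using hu
    · intro h
      refine ⟨s, ⟨rfl, ?_⟩, anyP_rel _ _⟩
      cases b
      · simpa [BF.Sat] using h
      · simpa [BF.Sat] using h
  · have h1 : (Sum.inr p : V ⊕ V) ∈ pair s t ↔ p ∈ t := by simp [pair]
    rw [h1]
    simp only [lit, Prog.Rel]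
    constructor
    · rintro ⟨u, _, ⟨rfl, hu⟩⟩
      cases b
      · simpa [BF.Sat] using hu
      · simpa [BF.Sat] using hu
    · intro h
      refine ⟨t, anyP_rel _ _, ⟨rfl, ?_⟩⟩
      cases b
      · simpa [BF.Sat] using h
      · simpa [BF.Sat] using h

omit [Fintype V] in
/-- Union over a list. -/
def unionL : List (Prog V) → Prog V
  | [] => .test .bot
  | π :: l => .union π (unionL l)

omit [Fintype V] in
theorem unionL_len (l : List (Prog V)) (B : ℕ) (h : ∀ π ∈ l, π.len ≤ B) :
    (unionL l).len ≤ l.length * (B + 3) + 2 := by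
  induction l with
  | nil => simp [unionL, Prog.len, BF.len]
  | cons π l ih =>
    have h1 := h π List.mem_cons_self
    have h2 := ih fun π' hπ' => h π' (List.mem_cons_of_mem _ hπ')
    simp only [unionL, Prog.len, List.length_cons]
    nlinarith

omit [Fintype V] in
theorem unionL_rel (l : List (Prog V)) (s t : Set V) :
    (unionL l).Rel s t ↔ ∃ π ∈ l, π.Rel s t := by
  induction l with
  | nil => simp [unionL, Prog.Rel, BF.Sat]
  | cons π l ih => simp [unionL, Prog.Rel, ih]

end

/-! ### Paths in a BDD -/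

section Paths

variable {X : Type} (Ω : BDD X) (a : Set X)

/-- The edge chosen by the assignment `a`. -/
def Step (u v : Fin Ω.size) : Prop :=
  ∃ x l h, Ω.node u = Sum.inr (x, l, h) ∧ ((x ∉ a ∧ v = l) ∨ (x ∈ a ∧ v = h))

/-- Paths of length `m`. -/
def Pth : ℕ → Fin Ω.size → Fin Ω.size → Prop
  | 0, u, v => u = v
  | m + 1, u, v => ∃ w, Step Ω a u w ∧ Pth m w v

theorem pth_add (m n : ℕ) (u v : Fin Ω.size) :
    Pth Ω a (m + n) u v ↔ ∃ w, Pth Ω a m u w ∧ Pth Ω a n w v := by
  induction m generalizing u with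
  | zero => simp [Pth]
  | succ m ih =>
    rw [show m + 1 + n = (m + n) + 1 by ring]
    simp only [Pth, ih]
    constructor
    · rintro ⟨w, hw, w', h1, h2⟩
      exact ⟨w', ⟨w, hw, h1⟩, h2⟩
    · rintro ⟨w', ⟨w, hw, h1⟩, h2⟩
      exact ⟨w, hw, w', h1, h2⟩

theorem acc_of_pth (m : ℕ) (u v : Fin Ω.size) (hv : Ω.node v = Sum.inl true)
    (h : Pth Ω a m u v) : Ω.Acc a u := by
  induction m generalizing u with
  | zero =>
    cases h
    exact BDD.Acc.leaf _ hv
  | succ m ih =>
    obtain ⟨w, ⟨x, l, h, hu, hw | hw⟩, hp⟩ := h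
    · obtain ⟨hx, rfl⟩ := hw
      exact BDD.Acc.low u x w h hu hx (ih _ hp)
    · obtain ⟨hx, rfl⟩ := hw
      exact BDD.Acc.high u x l w hu hx (ih _ hp)

open Classical in
/-- An upper bound for the number of steps from a node. -/
noncomputable def depth (u : Fin Ω.size) : ℕ :=
  match Ω.node u with
  | Sum.inl _ => 0
  | Sum.inr (x, _, _) =>
    (Finset.univ.filter fun w : Fin Ω.size =>
      ∃ y l h, Ω.node w = Sum.inr (y, l, h) ∧ Ω.rk x ≤ Ω.rk y).card

theorem depth_le (u : Fin Ω.size) : depth Ω u ≤ Ω.size := by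
  classical
  unfold depth
  split
  · exact Nat.zero_le _
  · exact (Finset.card_le_univ _).trans (by simp)

theorem depth_lt (u v : Fin Ω.size) (x : X) (l h : Fin Ω.size)
    (hu : Ω.node u = Sum.inr (x, l, h)) (hv : v = l ∨ v = h) : depth Ω v < depth Ω u := by
  classical
  have hord := Ω.ordered u x l h hu
  have hu' : depth Ω u = (Finset.univ.filter fun w : Fin Ω.size =>
      ∃ y l h, Ω.node w = Sum.inr (y, l, h) ∧ Ω.rk x ≤ Ω.rk y).card := by
    unfold depth
    rw [hu]
  rw [hu']
  rcases hn : Ω.node v with b | ⟨y, l', h'⟩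
  · have hv' : depth Ω v = 0 := by
      unfold depth
      rw [hn]
    rw [hv', Finset.card_pos]
    exact ⟨u, Finset.mem_filter.2 ⟨Finset.mem_univ _, x, l, h, hu, le_refl _⟩⟩
  · have hv' : depth Ω v = (Finset.univ.filter fun w : Fin Ω.size =>
        ∃ z l h, Ω.node w = Sum.inr (z, l, h) ∧ Ω.rk y ≤ Ω.rk z).card := by
      unfold depth
      rw [hn]
    rw [hv']
    have hlt : Ω.rk x < Ω.rk y := by
      rcases hv with rfl | rfl
      · exact hord.1 y l' h' hn
      · exact hord.2 y l' h' hn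
    apply Finset.card_lt_card
    refine ⟨?_, ?_⟩
    · intro w hw
      obtain ⟨_, z, l'', h'', h1, h2⟩ := Finset.mem_filter.1 hw
      exact Finset.mem_filter.2 ⟨Finset.mem_univ _, z, l'', h'', h1, hlt.le.trans h2⟩
    · intro hsub
      have := hsub (Finset.mem_filter.2 ⟨Finset.mem_univ u, x, l, h, hu, le_refl _⟩)
      obtain ⟨_, z, l'', h'', h1, h2⟩ := Finset.mem_filter.1 this
      rw [hu] at h1
      simp only [Sum.inr.injEq, Prod.mk.injEq] at h1
      rw [← h1.1] at h2
      omega

theorem pth_of_acc (u : Fin Ω.size) (h : Ω.Acc a u) :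
    ∃ v, Ω.node v = Sum.inl true ∧ ∃ m ≤ depth Ω u, Pth Ω a m u v := by
  induction h with
  | leaf u h => exact ⟨u, h, 0, Nat.zero_le _, rfl⟩
  | low u x l h hu hx _ ih =>
    obtain ⟨v, hv, m, hm, hp⟩ := ih
    exact ⟨v, hv, m + 1, Nat.succ_le_of_lt (lt_of_le_of_lt hm (depth_lt Ω u l x l h hu
      (Or.inl rfl))), l, ⟨x, l, h, hu, Or.inl ⟨hx, rfl⟩⟩, hp⟩
  | high u x l h hu hx _ ih =>
    obtain ⟨v, hv, m, hm, hp⟩ := ih
    exact ⟨v, hv, m + 1, Nat.succ_le_of_lt (lt_of_le_of_lt hm (depth_lt Ω u h x l h hu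
      (Or.inr rfl))), h, ⟨x, l, h, hu, Or.inr ⟨hx, rfl⟩⟩, hp⟩

end Paths

/-! ### The translation -/

section Translation

variable {V : Type} [Fintype V] (Ω : BDD (V ⊕ V))

open Classical in
/-- Paths of length at most one. -/
noncomputable def base (u v : Fin Ω.size) : Prog V :=
  .union (if u = v then anyP V else .test .bot)
    (match Ω.node u with
      | Sum.inl _ => .test .bot
      | Sum.inr (x, l, h) => .union (if v = l then lit false x else .test .bot)
          (if v = h then lit true x else .test .bot))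

theorem base_len (u v : Fin Ω.size) : (base Ω u v).len ≤ 36 * Fintype.card V + 24 := by
  classical
  have h1 : (if u = v then anyP V else Prog.test BF.bot).len ≤ 12 * Fintype.card V + 2 := by
    split_ifs
    · rw [anyP_len]
    · simp [Prog.len, BF.len]
  have h2 : ∀ (b : Bool) (x : V ⊕ V) (w : Fin Ω.size),
      (if v = w then lit b x else Prog.test BF.bot).len ≤ 12 * Fintype.card V + 8 := by
    intro b x w
    split_ifs
    · exact lit_len b x
    · simp [Prog.len, BF.len]
  unfold base
  simp only [Prog.len]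
  rcases Ω.node u with b | ⟨x, l, h⟩
  · simp only [Prog.len, BF.len]
    omega
  · have h3 := h2 false x l
    have h4 := h2 true x h
    simp only [Prog.len]
    omega

theorem base_rel (u v : Fin Ω.size) (s t : Set V) :
    (base Ω u v).Rel s t ↔ ∃ m ≤ 1, Pth Ω (pair s t) m u v := by
  classical
  have h0 : (∃ m ≤ 1, Pth Ω (pair s t) m u v) ↔ (u = v ∨ Step Ω (pair s t) u v) := by
    constructor
    · rintro ⟨m, hm, h⟩
      interval_cases m
      · exact Or.inl h
      · obtain ⟨w, hw, hw'⟩ := h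
        cases hw'
        exact Or.inr hw
    · rintro (h | h)
      · exact ⟨0, by omega, h⟩
      · exact ⟨1, le_refl _, v, h, rfl⟩
  rw [h0]
  unfold base
  simp only [Prog.Rel]
  apply or_congr
  · split_ifs with h
    · simp [h, anyP_rel]
    · simp [h, Prog.Rel, BF.Sat]
  · unfold Step
    rcases hn : Ω.node u with b | ⟨x, l, h⟩
    · simp [Prog.Rel, BF.Sat]
    · simp only [Prog.Rel]
      constructor
      · rintro (h1 | h1)
        · split_ifs at h1 with h2
          · rw [lit_rel] at h1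
            exact ⟨x, l, h, rfl, Or.inl ⟨by simpa using h1, h2⟩⟩
          · simp [Prog.Rel, BF.Sat] at h1
        · split_ifs at h1 with h2
          · rw [lit_rel] at h1
            exact ⟨x, l, h, rfl, Or.inr ⟨by simpa using h1, h2⟩⟩
          · simp [Prog.Rel, BF.Sat] at h1
      · rintro ⟨x', l', h', he, h1⟩
        simp only [Sum.inr.injEq, Prod.mk.injEq] at he
        obtain ⟨rfl, rfl, rfl⟩ := he
        rcases h1 with ⟨h1, rfl⟩ | ⟨h1, rfl⟩
        · left
          rw [if_pos rfl, lit_rel]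
          simpa using h1
        · right
          rw [if_pos rfl, lit_rel]
          simpa using h1

/-- Paths of length at most `2 ^ k`, by divide and conquer. -/
noncomputable def reach : ℕ → Fin Ω.size → Fin Ω.size → Prog V
  | 0, u, v => base Ω u v
  | k + 1, u, v => unionL ((List.finRange Ω.size).map fun w => .inter (reach k u w) (reach k w v))

theorem reach_len (k : ℕ) (u v : Fin Ω.size) :
    (reach Ω k u v).len ≤ (3 * Ω.size + 1) ^ k * (36 * Fintype.card V + 24) := by
  induction k generalizing u v with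
  | zero => simpa [reach] using base_len Ω u v
  | succ k ih =>
    set B := (3 * Ω.size + 1) ^ k * (36 * Fintype.card V + 24) with hB
    have hB' : 24 ≤ B := by
      have h1 : 1 ≤ (3 * Ω.size + 1) ^ k := Nat.one_le_pow _ _ (by omega)
      calc 24 = 1 * 24 := rfl
        _ ≤ (3 * Ω.size + 1) ^ k * (36 * Fintype.card V + 24) :=
          Nat.mul_le_mul h1 (by omega)
    have h2 : (reach Ω (k + 1) u v).len ≤ Ω.size * ((2 * B + 3) + 3) + 2 := by
      have := unionL_len ((List.finRange Ω.size).map fun w =>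
        Prog.inter (reach Ω k u w) (reach Ω k w v)) (2 * B + 3) (by
          intro π hπ
          obtain ⟨w, _, rfl⟩ := List.mem_map.1 hπ
          have h3 := ih u w
          have h4 := ih w v
          simp only [Prog.len]
          omega)
      simpa [reach] using this
    calc (reach Ω (k + 1) u v).len ≤ Ω.size * ((2 * B + 3) + 3) + 2 := h2
      _ ≤ (3 * Ω.size + 1) * B := by nlinarith
      _ = (3 * Ω.size + 1) ^ (k + 1) * (36 * Fintype.card V + 24) := by
        rw [hB, pow_succ]
        ring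

theorem reach_rel (k : ℕ) (u v : Fin Ω.size) (s t : Set V) :
    (reach Ω k u v).Rel s t ↔ ∃ m ≤ 2 ^ k, Pth Ω (pair s t) m u v := by
  induction k generalizing u v with
  | zero => simpa [reach] using base_rel Ω u v s t
  | succ k ih =>
    simp only [reach, unionL_rel, List.mem_map, List.mem_finRange, true_and]
    constructor
    · rintro ⟨_, ⟨w, rfl⟩, h⟩
      simp only [Prog.Rel, ih] at h
      obtain ⟨⟨m, hm, h1⟩, ⟨n, hn, h2⟩⟩ := h
      refine ⟨m + n, by rw [pow_succ]; omega, ?_⟩
      rw [pth_add]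
      exact ⟨w, h1, h2⟩
    · rintro ⟨m, hm, h⟩
      have h1 : m = min m (2 ^ k) + (m - min m (2 ^ k)) := by omega
      rw [h1, pth_add] at h
      obtain ⟨w, h2, h3⟩ := h
      refine ⟨_, ⟨w, rfl⟩, ?_⟩
      simp only [Prog.Rel, ih]
      rw [pow_succ] at hm
      exact ⟨⟨_, by omega, h2⟩, ⟨_, by omega, h3⟩⟩

open Classical in
/-- The translation. -/
noncomputable def trans : Prog V :=
  unionL ((List.finRange Ω.size).map fun v =>
    if Ω.node v = Sum.inl true then reach Ω (Nat.log 2 Ω.size + 1) Ω.root v else .test .bot)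

theorem trans_rel (s t : Set V) : (trans Ω).Rel s t ↔ Ω.Rel s t := by
  classical
  simp only [trans, unionL_rel, List.mem_map, List.mem_finRange, true_and, BDD.Rel]
  constructor
  · rintro ⟨_, ⟨v, rfl⟩, h⟩
    split_ifs at h with hv
    · rw [reach_rel] at h
      obtain ⟨m, _, hm⟩ := h
      exact acc_of_pth Ω _ m _ v hv hm
    · simp [Prog.Rel, BF.Sat] at h
  · intro h
    obtain ⟨v, hv, m, hm, hp⟩ := pth_of_acc Ω _ _ h
    refine ⟨_, ⟨v, rfl⟩, ?_⟩
    rw [if_pos hv, reach_rel]
    exact ⟨m, (hm.trans (depth_le Ω _)).trans (Nat.lt_pow_succ_log_self (by norm_num) _).le, hp⟩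

theorem trans_len : (trans Ω).len ≤
    (3 * Ω.size + 1) ^ (Nat.log 2 Ω.size + 2) * (36 * Fintype.card V + 24) := by
  classical
  set B := (3 * Ω.size + 1) ^ (Nat.log 2 Ω.size + 1) * (36 * Fintype.card V + 24) with hB
  have hB' : 24 ≤ B := by
    have h1 : 1 ≤ (3 * Ω.size + 1) ^ (Nat.log 2 Ω.size + 1) := Nat.one_le_pow _ _ (by omega)
    calc 24 = 1 * 24 := rfl
      _ ≤ _ := Nat.mul_le_mul h1 (by omega)
  have h2 : (trans Ω).len ≤ Ω.size * (B + 3) + 2 := by
    have := unionL_len ((List.finRange Ω.size).map fun v =>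
      if Ω.node v = Sum.inl true then reach Ω (Nat.log 2 Ω.size + 1) Ω.root v else .test .bot) B (by
        intro π hπ
        obtain ⟨w, _, rfl⟩ := List.mem_map.1 hπ
        split_ifs
        · exact reach_len Ω _ _ _
        · simp only [Prog.len, BF.len]
          omega)
    simpa [trans] using this
  calc (trans Ω).len ≤ Ω.size * (B + 3) + 2 := h2
    _ ≤ (3 * Ω.size + 1) * B := by nlinarith
    _ = _ := by
      rw [hB, pow_succ (3 * Ω.size + 1) (Nat.log 2 Ω.size + 1)]
      ring

theorem trans_len' : (trans Ω).len ≤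
    2 ^ (5 * (Nat.log 2 (Ω.size + Fintype.card V + 2) + 1) ^ 2) := by
  have hs : 1 ≤ Ω.size := Nat.succ_le_of_lt (Nat.pos_of_ne_zero fun h => by
    have := Ω.root
    rw [h] at this
    exact this.elim0)
  set T := Ω.size + Fintype.card V + 2 with hT
  set L := Nat.log 2 T + 1 with hL
  have hTL : T ≤ 2 ^ L := (Nat.lt_pow_succ_log_self (by norm_num) T).le
  have hL2 : 2 ≤ L := by
    have : 1 ≤ Nat.log 2 T := Nat.log_pos (by norm_num) (by omega)
    omega
  have hK : Nat.log 2 Ω.size + 2 ≤ L + 1 := by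
    have : Nat.log 2 Ω.size ≤ Nat.log 2 T := Nat.log_mono_right (by omega)
    omega
  have h1 : 3 * Ω.size + 1 ≤ 2 ^ (L + 2) := by
    rw [pow_add]
    omega
  have h2 : 36 * Fintype.card V + 24 ≤ 2 ^ (L + 6) := by
    rw [pow_add]
    omega
  calc (trans Ω).len ≤
      (3 * Ω.size + 1) ^ (Nat.log 2 Ω.size + 2) * (36 * Fintype.card V + 24) := trans_len Ω
    _ ≤ (2 ^ (L + 2)) ^ (L + 1) * 2 ^ (L + 6) := by
        refine Nat.mul_le_mul ?_ h2
        exact (Nat.pow_le_pow_left h1 _).trans (Nat.pow_le_pow_right (by positivity) hK)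
    _ = 2 ^ ((L + 2) * (L + 1) + (L + 6)) := by
        rw [← pow_mul, ← pow_add]
    _ ≤ 2 ^ (5 * L ^ 2) := Nat.pow_le_pow_right (by norm_num) (by nlinarith)

end Translation

/-! ### Asymptotics -/

/-- Quasi-polynomial growth is eventually below `2 ^ (c N ^ δ)`. -/
theorem asymp (c δ : ℝ) (hc : 0 < c) (hδ : 0 < δ) (k : ℕ) : ∃ N₀ : ℕ, ∀ N n : ℕ, N₀ ≤ N →
    n ≤ N ^ k → ((2 ^ (5 * (Nat.log 2 (N + n + 2) + 1) ^ 2) : ℕ) : ℝ) <
      (2 : ℝ) ^ (c * (N : ℝ) ^ δ) := by
  have hε : 0 < Real.sqrt (c / 10) := Real.sqrt_pos.2 (by positivity)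
  have hlo : (fun x : ℝ => ((k + 2 : ℝ) / Real.log 2) * Real.log x + 1) =o[Filter.atTop]
      fun x : ℝ => x ^ (δ / 2) := by
    refine ((isLittleO_log_rpow_atTop (half_pos hδ)).const_mul_left _).add ?_
    refine Asymptotics.isLittleO_const_left.2 (Or.inr ?_)
    exact tendsto_norm_atTop_atTop.comp (tendsto_rpow_atTop (half_pos hδ))
  have hev := hlo.def hε
  have hev' := (tendsto_natCast_atTop_atTop (R := ℝ)).eventually hev
  obtain ⟨N₁, hN₁⟩ := Filter.eventually_atTop.1 hev'
  refine ⟨max N₁ 3, fun N n hN hn => ?_⟩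
  have hN3 : 3 ≤ N := (le_max_right _ _).trans hN
  have hb := hN₁ N ((le_max_left _ _).trans hN)
  have hNpos : (0 : ℝ) < N := by positivity
  have hT : N + n + 2 ≤ N ^ (k + 2) := by
    have e1 : N ≤ N ^ (k + 1) := by
      calc N = N ^ 1 := (pow_one N).symm
        _ ≤ N ^ (k + 1) := Nat.pow_le_pow_right (by omega) (by omega)
    have e2 : N ^ k ≤ N ^ (k + 1) := Nat.pow_le_pow_right (by omega) (by omega)
    have e3 : N ^ (k + 2) = N ^ (k + 1) * N := pow_succ _ _
    nlinarith
  have hlog : ((Nat.log 2 (N + n + 2) + 1 : ℕ) : ℝ) ≤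
      ((k + 2 : ℝ) / Real.log 2) * Real.log N + 1 := by
    have h1 : ((Nat.log 2 (N + n + 2) : ℕ) : ℝ) ≤ Real.logb 2 ((N + n + 2 : ℕ) : ℝ) := by
      have := Real.natLog_le_logb (N + n + 2) 2
      exact_mod_cast this
    have h2 : Real.logb 2 ((N + n + 2 : ℕ) : ℝ) ≤ Real.logb 2 ((N : ℝ) ^ (k + 2)) := by
      apply Real.logb_le_logb_of_le (by norm_num) (by positivity)
      exact_mod_cast hT
    have h3 : Real.logb 2 ((N : ℝ) ^ (k + 2)) = ((k + 2 : ℝ) / Real.log 2) * Real.log N := by
      rw [Real.logb, Real.log_pow]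
      push_cast
      ring
    push_cast
    linarith
  have h4 : ((Nat.log 2 (N + n + 2) + 1 : ℕ) : ℝ) ≤ Real.sqrt (c / 10) * (N : ℝ) ^ (δ / 2) := by
    refine hlog.trans ?_
    refine (le_abs_self _).trans ?_
    rw [Real.norm_eq_abs, Real.norm_eq_abs, abs_of_pos (Real.rpow_pos_of_pos hNpos _)] at hb
    exact hb
  have h5 : ((Nat.log 2 (N + n + 2) + 1 : ℕ) : ℝ) ^ 2 ≤ c / 10 * (N : ℝ) ^ δ := by
    calc ((Nat.log 2 (N + n + 2) + 1 : ℕ) : ℝ) ^ 2 ≤
        (Real.sqrt (c / 10) * (N : ℝ) ^ (δ / 2)) ^ 2 := by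
          apply pow_le_pow_left₀ (by positivity) h4
      _ = c / 10 * (N : ℝ) ^ δ := by
          rw [mul_pow, Real.sq_sqrt (by positivity), ← Real.rpow_natCast, ← Real.rpow_mul hNpos.le]
          norm_num
  have h6 : (5 * ((Nat.log 2 (N + n + 2) + 1 : ℕ) : ℝ) ^ 2) < c * (N : ℝ) ^ δ := by
    have : 0 < c * (N : ℝ) ^ δ := by positivity
    linarith
  have h7 : ((2 ^ (5 * (Nat.log 2 (N + n + 2) + 1) ^ 2) : ℕ) : ℝ) =
      (2 : ℝ) ^ (5 * ((Nat.log 2 (N + n + 2) + 1 : ℕ) : ℝ) ^ 2) := by
    rw [Nat.cast_pow, ← Real.rpow_natCast]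
    push_cast
    rfl
  rw [h7]
  exact Real.rpow_lt_rpow_of_exponent_lt (by norm_num) h6

/-- **A quasi-polynomial translation from BDDs to mental programs.** There is a translation `τ`
from BDDs over `V ∪ V'` to mental programs over `V` (for all finite `V`) which is correct, whose
output has length at most `2 ^ (5 L ^ 2)` with `L = ⌊log₂ (N + |V| + 2)⌋ + 1`, where `N` is the
number of nodes, and which therefore has length below `2 ^ (c N ^ δ)`, for all `c, δ > 0` and all
large `N`, on all BDDs with `|V| ≤ N ^ k`, for every fixed `k`. -/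
theorem result : ∃ τ : (V : Type) → [Fintype V] → BDD (V ⊕ V) → Prog V,
    (∀ (V : Type) [Fintype V] (Ω : BDD (V ⊕ V)) (s t : Set V), (τ V Ω).Rel s t ↔ Ω.Rel s t) ∧
    (∀ (V : Type) [Fintype V] (Ω : BDD (V ⊕ V)),
      (τ V Ω).len ≤ 2 ^ (5 * (Nat.log 2 (Ω.size + Fintype.card V + 2) + 1) ^ 2)) ∧
    (∀ c δ : ℝ, 0 < c → 0 < δ → ∀ k : ℕ, ∃ N₀ : ℕ, ∀ (V : Type) [Fintype V] (Ω : BDD (V ⊕ V)),
      N₀ ≤ Ω.size → Fintype.card V ≤ Ω.size ^ k →
      ((τ V Ω).len : ℝ) < (2 : ℝ) ^ (c * (Ω.size : ℝ) ^ δ)) := by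
  refine ⟨fun V _ Ω => trans Ω, fun V _ Ω s t => trans_rel Ω s t, fun V _ Ω => trans_len' Ω, ?_⟩
  intro c δ hc hδ k
  obtain ⟨N₀, h⟩ := asymp c δ hc hδ k
  refine ⟨N₀, fun V _ Ω h1 h2 => lt_of_le_of_lt ?_ (h Ω.size (Fintype.card V) h1 h2)⟩
  exact_mod_cast trans_len' Ω

end Pool.Agent.Results.MP_811ee8_lc.QuasiPoly
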